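import Pool.Agent.P8H60.EN.Stm

/-! # Project EN, package CF: the characteristic function of the prime polynomials -/

set_option autoImplicit false

namespace Pool.Agent.P8H54.EN

open Finset MeasureTheory Filter Topology ProbabilityTheory Complex
open Pool.Agent.P8H60.LM (GC VC)
open Pool.Agent.Y743.CL (rc XK er VS SS rc_sq kap_bd Pr)
open Pool.Agent.P8H60.EN
open Pool.Agent.R321.QA (hs)

lemma rc_le {l : ℝ} (hl : 0 < l) (h : ℝ) {p : ℕ} (hp : 2 ≤ p) : rc l h p ^ 2 ≤ 1 / p := by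
  rw [rc_sq l h p hp]
  refine (kap_bd hl h p hp).trans ?_
  split_ifs
  · exact le_rfl
  · positivity

lemma cpow_norm {p : ℕ} (hp : p ≠ 0) (s : ℝ) : ‖(p : ℂ) ^ (-(s : ℂ) * I)‖ = 1 := by
  have hn0 : (0 : ℝ) < p := by exact_mod_cast Nat.pos_of_ne_zero hp
  have : ((p : ℕ) : ℂ) = ((p : ℝ) : ℂ) := by push_cast; rfl
  rw [this, Complex.norm_cpow_eq_rpow_re_of_pos hn0]
  simp

lemma zE_norm (w l h : ℝ) (z0 : ℕ) {p : ℕ} (hp : p ≠ 0) :
    ‖zE w l h z0 p‖ ^ 2 = if z0 < p then w ^ 2 * rc l h p ^ 2 else 0 := by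
  unfold zE
  split_ifs with h1
  · rw [norm_mul, cpow_norm hp, mul_one, Complex.norm_real, Real.norm_eq_abs, sq_abs, mul_pow]
  · simp

lemma zE_le (w l h : ℝ) (z0 : ℕ) {p : ℕ} (hp : p ≠ 0) :
    ‖zE w l h z0 p‖ ^ 2 ≤ w ^ 2 * rc l h p ^ 2 := by
  rw [zE_norm w l h z0 hp]
  split_ifs
  · exact le_rfl
  · positivity

lemma VC_zE (w l h : ℝ) (z0 X : ℕ) : VC (zE w l h z0) X ≤ w ^ 2 * VS (rc l h) X := by
  unfold VC VS
  rw [Finset.mul_sum]
  refine Finset.sum_le_sum fun p hp => zE_le w l h z0 ?_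
  have := (Finset.mem_Icc.1 (Finset.mem_filter.1 hp).1).1
  omega

lemma zU_le {K : ℕ} (w l Ξ : ℝ) (h u : Fin K → ℝ) (z0 p : ℕ) (hu : ∀ i, |u i| ≤ Ξ) :
    ‖zU w l h u z0 p‖ ^ 2 ≤ K * Ξ ^ 2 * ∑ i, ‖zE w l (h i) z0 p‖ ^ 2 := by
  unfold zU
  have h1 : ‖∑ i, (u i : ℂ) * zE w l (h i) z0 p‖ ≤ ∑ i, ‖(u i : ℂ) * zE w l (h i) z0 p‖ := norm_sum_le _ _
  have h2 : (∑ i, ‖(u i : ℂ) * zE w l (h i) z0 p‖) ^ 2 ≤
      (Finset.univ : Finset (Fin K)).card * ∑ i, ‖(u i : ℂ) * zE w l (h i) z0 p‖ ^ 2 :=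
    sq_sum_le_card_mul_sum_sq
  have h3 : ∑ i, ‖(u i : ℂ) * zE w l (h i) z0 p‖ ^ 2 ≤ Ξ ^ 2 * ∑ i, ‖zE w l (h i) z0 p‖ ^ 2 := by
    rw [Finset.mul_sum]
    refine Finset.sum_le_sum fun i _ => ?_
    rw [norm_mul, mul_pow, Complex.norm_real, Real.norm_eq_abs]
    exact mul_le_mul_of_nonneg_right (pow_le_pow_left₀ (abs_nonneg _) (hu i) 2) (sq_nonneg _)
  rw [Finset.card_univ, Fintype.card_fin] at h2
  calc _ ≤ (∑ i, ‖(u i : ℂ) * zE w l (h i) z0 p‖) ^ 2 := pow_le_pow_left₀ (norm_nonneg _) h1 2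
    _ ≤ _ := h2
    _ ≤ K * (Ξ ^ 2 * ∑ i, ‖zE w l (h i) z0 p‖ ^ 2) := mul_le_mul_of_nonneg_left h3 (Nat.cast_nonneg _)
    _ = _ := by ring

lemma VC_zU {K : ℕ} (w l Ξ : ℝ) (h u : Fin K → ℝ) (z0 X : ℕ) (hu : ∀ i, |u i| ≤ Ξ) (D : ℝ)
    (hD : ∀ i, VC (zE w l (h i) z0) X ≤ D) :
    VC (zU w l h u z0) X ≤ K ^ 2 * (Ξ ^ 2 * D) := by
  have h1 : VC (zU w l h u z0) X ≤ K * Ξ ^ 2 * ∑ i, VC (zE w l (h i) z0) X := by
    unfold VC
    rw [Finset.sum_comm, Finset.mul_sum]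
    exact Finset.sum_le_sum fun p _ => zU_le w l Ξ h u z0 p hu
  have h2 : ∑ i, VC (zE w l (h i) z0) X ≤ K * D := by
    refine (Finset.sum_le_sum fun i _ => hD i).trans ?_
    rw [Finset.sum_const, Finset.card_univ, Fintype.card_fin, nsmul_eq_mul]
  have h3 : 0 ≤ (K : ℝ) * Ξ ^ 2 := by positivity
  calc _ ≤ _ := h1
    _ ≤ K * Ξ ^ 2 * (K * D) := mul_le_mul_of_nonneg_left h2 h3
    _ = _ := by ring

lemma zU_sup {K : ℕ} (w l Ξ : ℝ) (hl : 0 < l) (h u : Fin K → ℝ) (z0 p : ℕ) (hz : 2 ≤ z0)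
    (hu : ∀ i, |u i| ≤ Ξ) : ‖zU w l h u z0 p‖ ^ 2 ≤ K ^ 2 * Ξ ^ 2 * (w ^ 2 / z0) := by
  have hz0 : (0 : ℝ) < z0 := by exact_mod_cast (by omega : 0 < z0)
  rcases Nat.lt_or_ge z0 p with hp | hp
  · refine (zU_le w l Ξ h u z0 p hu).trans ?_
    have hpz : (z0 : ℝ) ≤ p := by exact_mod_cast hp.le
    have h1 : ∀ i, ‖zE w l (h i) z0 p‖ ^ 2 ≤ w ^ 2 / z0 := by
      intro i
      refine (zE_le w l (h i) z0 (by omega)).trans ?_
      have h2 := rc_le hl (h i) (p := p) (by omega)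
      have h3 : (1 : ℝ) / p ≤ 1 / z0 := one_div_le_one_div_of_le hz0 hpz
      calc w ^ 2 * rc l (h i) p ^ 2 ≤ w ^ 2 * (1 / z0) :=
            mul_le_mul_of_nonneg_left (h2.trans h3) (sq_nonneg _)
        _ = _ := by ring
    have h2 : ∑ i, ‖zE w l (h i) z0 p‖ ^ 2 ≤ K * (w ^ 2 / z0) := by
      refine (Finset.sum_le_sum fun i _ => h1 i).trans ?_
      rw [Finset.sum_const, Finset.card_univ, Fintype.card_fin, nsmul_eq_mul]
    calc _ ≤ K * Ξ ^ 2 * (K * (w ^ 2 / z0)) := mul_le_mul_of_nonneg_left h2 (by positivity)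
      _ = _ := by ring
  · have h1 : zU w l h u z0 p = 0 := by
      unfold zU
      refine Finset.sum_eq_zero fun i _ => ?_
      unfold zE
      rw [if_neg (by omega)]
      simp
    rw [h1, norm_zero, zero_pow two_ne_zero]
    positivity

lemma wL_sq {L : ℕ} (hL : 1 ≤ L) : wL L ^ 2 = 2 * Real.pi ^ 2 / Real.log ((2 * L : ℕ) : ℝ) := by
  have h0 : 0 < Real.log ((2 * L : ℕ) : ℝ) := Real.log_pos (by exact_mod_cast (by omega : 1 < 2 * L))
  unfold wL
  rw [mul_pow, div_pow, Real.sq_sqrt (by norm_num), Real.sq_sqrt h0.le]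
  ring

/-- the elementary inequality for the error term -/
lemma tail_le {y n V B K : ℝ} (hy : 2000 ≤ y) (hn : 32 * n ≤ y) (hn0 : 1 ≤ n) (hV : V ≤ 2 * n)
    (hBK : B * K ≤ n) : 8 * (1 + y) / Real.exp (y / 2) * (2 * n + Real.exp V + 1) ≤
      Real.exp (-(B * K)) / 3 := by
  have h1 : Real.exp V ≤ Real.exp (2 * n) := Real.exp_le_exp.2 hV
  have h2 : 2 * n + 1 ≤ Real.exp (2 * n) := Real.add_one_le_exp _
  have h3 : 48 * (1 + y) ≤ Real.exp (y / 4) := by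
    have h0 := Real.quadratic_le_exp_of_nonneg (x := y / 4) (by linarith)
    nlinarith only [h0, hy]
  have h4 : Real.exp (y / 4) * Real.exp (3 * n) ≤ Real.exp (y / 2) := by
    rw [← Real.exp_add]
    apply Real.exp_le_exp.2
    linarith
  have h5 : Real.exp (B * K) ≤ Real.exp n := Real.exp_le_exp.2 hBK
  have h6 : Real.exp (2 * n) * Real.exp n = Real.exp (3 * n) := by
    rw [← Real.exp_add]; congr 1; ring
  have h7 : Real.exp (-(B * K)) * Real.exp (B * K) = 1 := by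
    rw [← Real.exp_add, neg_add_cancel, Real.exp_zero]
  have e0 := Real.exp_pos (y / 2)
  have e1 := Real.exp_pos (B * K)
  have e2 := Real.exp_pos (-(B * K))
  have e3 := Real.exp_pos (2 * n)
  have e4 := Real.exp_pos n
  have h8 : 24 * (1 + y) * (2 * n + Real.exp V + 1) * Real.exp (B * K) ≤ Real.exp (y / 2) := by
    calc 24 * (1 + y) * (2 * n + Real.exp V + 1) * Real.exp (B * K)
        ≤ 24 * (1 + y) * (2 * Real.exp (2 * n)) * Real.exp n := by
          apply mul_le_mul _ h5 e1.le (by positivity)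
          apply mul_le_mul_of_nonneg_left _ (by linarith)
          linarith
      _ = 48 * (1 + y) * (Real.exp (2 * n) * Real.exp n) := by ring
      _ ≤ Real.exp (y / 4) * (Real.exp (2 * n) * Real.exp n) :=
          mul_le_mul_of_nonneg_right h3 (by positivity)
      _ = Real.exp (y / 4) * Real.exp (3 * n) := by rw [h6]
      _ ≤ _ := h4
  rw [div_mul_eq_mul_div, div_le_iff₀ e0]
  have h9 : Real.exp (-(B * K)) / 3 * Real.exp (y / 2) ≥ Real.exp (-(B * K)) / 3 *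
      (24 * (1 + y) * (2 * n + Real.exp V + 1) * Real.exp (B * K)) :=
    mul_le_mul_of_nonneg_left h8 (by positivity)
  have h10 : Real.exp (-(B * K)) / 3 *
      (24 * (1 + y) * (2 * n + Real.exp V + 1) * Real.exp (B * K)) =
      8 * (1 + y) * (2 * n + Real.exp V + 1) * (Real.exp (-(B * K)) * Real.exp (B * K)) := by ring
  rw [h10, h7, mul_one] at h9
  exact h9

/-- the length of the polynomial -/
lemma XK_pow {n : ℕ} (hn : 1 ≤ n) {T : ℝ} (hT : 1 ≤ T) :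
    1 ≤ XK (1 / (4 * (n : ℝ))) T ∧ ((XK (1 / (4 * (n : ℝ))) T ^ (2 * n) : ℕ) : ℝ) ≤ Real.sqrt T := by
  have hT0 : 0 < T := by linarith
  have hn0 : (0 : ℝ) < n := by exact_mod_cast hn
  constructor
  · unfold XK
    apply Nat.le_floor
    push_cast
    exact Real.one_le_rpow hT (by positivity)
  · have h1 : (XK (1 / (4 * (n : ℝ))) T : ℝ) ≤ T ^ (1 / (4 * (n : ℝ))) := Nat.floor_le (by positivity)
    push_cast
    calc (XK (1 / (4 * (n : ℝ))) T : ℝ) ^ (2 * n) ≤ (T ^ (1 / (4 * (n : ℝ)))) ^ (2 * n) :=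
          pow_le_pow_left₀ (Nat.cast_nonneg _) h1 _
      _ = T ^ (1 / 2 : ℝ) := by
          rw [← Real.rpow_natCast, ← Real.rpow_mul hT0.le]
          congr 1
          push_cast
          field_simp
          norm_num
      _ = Real.sqrt T := (Real.sqrt_eq_rpow T).symm

/-- the size of the variance of one coefficient sequence -/
lemma VC_one {lam C T0 : ℝ} (hCB : CB lam C T0) {L n z0 : ℕ} {T x : ℝ} (hL : 2 ≤ L) (hT : T0 ≤ T)
    (hlam : lam ≤ x) (hx : x ≤ 2 * L) (hxT : 2 * (L : ℝ) * Real.log (2 * L) ≤ 3 * Real.log T)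
    (hn : 2 ≤ n) (hnT : 32 * (n : ℝ) ≤ Real.log T)
    (hnL : 1 + Real.log (4 * n) ≤ 2 * Real.log (2 * L)) :
    VC (zE (wL L) (Real.log T / lam) (hs x T) z0) (XK (1 / (4 * (n : ℝ))) T) ≤ 4 + 60 * C := by
  obtain ⟨h16, hC, hT10, hcb⟩ := hCB
  have hn0 : (0 : ℝ) < n := by exact_mod_cast (by omega : 0 < n)
  have hn2 : (2 : ℝ) ≤ n := by exact_mod_cast hn
  have hL2 : (2 : ℝ) ≤ L := by exact_mod_cast hL
  have hx0 : 0 < x := by linarith
  have hl0 : 0 < Real.log (2 * (L : ℝ)) := Real.log_pos (by linarith)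
  have hlx : Real.log x ≤ Real.log (2 * (L : ℝ)) := Real.log_le_log hx0 hx
  have hlx0 : 0 ≤ Real.log x := Real.log_nonneg (by linarith)
  have h1 : x * Real.log x ≤ 3 * Real.log T := by
    refine le_trans ?_ hxT
    exact mul_le_mul hx hlx hlx0 (by positivity)
  have h2 := (hcb T hT x hlam h1 (1 / (4 * (n : ℝ))) (by positivity) (by
    rw [div_le_div_iff₀ (by positivity) (by norm_num)]; linarith) (by
    rw [div_mul_eq_mul_div, le_div_iff₀ (by positivity)]; linarith)).2.2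
  have h3 := (abs_le.1 h2).2
  rw [one_div_one_div] at h3
  have h4 : VS (rc (Real.log T / lam) (2 * Real.pi * x / Real.log T)) (XK (1 / (4 * (n : ℝ))) T) ≤
      2 / Real.pi ^ 2 * Real.log (2 * L) + C * (2 * Real.log (2 * L)) := by
    have h5 : 2 / Real.pi ^ 2 * Real.log x ≤ 2 / Real.pi ^ 2 * Real.log (2 * L) :=
      mul_le_mul_of_nonneg_left hlx (by positivity)
    have h6 : C * (1 + Real.log (4 * n)) ≤ C * (2 * Real.log (2 * L)) :=
      mul_le_mul_of_nonneg_left hnL hC.le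
    linarith
  refine (VC_zE _ _ _ _ _).trans ?_
  have h7 : wL L ^ 2 = 2 * Real.pi ^ 2 / Real.log (2 * L) := by
    rw [wL_sq (by omega)]
    push_cast
    rfl
  have hpi := Real.pi_pos
  rw [h7]
  calc 2 * Real.pi ^ 2 / Real.log (2 * L) *
        VS (rc (Real.log T / lam) (hs x T)) (XK (1 / (4 * (n : ℝ))) T)
      ≤ 2 * Real.pi ^ 2 / Real.log (2 * L) *
        (2 / Real.pi ^ 2 * Real.log (2 * L) + C * (2 * Real.log (2 * L))) :=
        mul_le_mul_of_nonneg_left h4 (by positivity)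
    _ = 4 + 4 * Real.pi ^ 2 * C := by
        field_simp
        ring
    _ ≤ 4 + 60 * C := by
        have hpi2 : Real.pi ^ 2 ≤ 10 := by
          have h2 := Real.pi_lt_d2
          have h3 := Real.pi_gt_three
          nlinarith only [h2, h3]
        nlinarith only [hpi2, hC]

theorem t_CF : S_CFA := by
  intro hcfq lam C T0 hCB Ξ B θ A₀ hΞ hB hθ
  obtain ⟨h16, hC, hT10, hcb⟩ := id hCB
  set V1 : ℝ := Ξ ^ 2 * (4 + 60 * C) with hV1
  have hV10 : 0 ≤ V1 := by positivity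
  obtain ⟨A, hA⟩ := exists_nat_ge (max 2 (max A₀ (3 * V1 + B + 4 + 60 * Ξ ^ 2)))
  have hA2 : (2 : ℝ) ≤ A := (le_max_left _ _).trans hA
  have hAA₀ : A₀ ≤ A := ((le_max_left _ _).trans (le_max_right _ _)).trans hA
  have hAV : 3 * V1 + B + 4 + 60 * Ξ ^ 2 ≤ A := ((le_max_right _ _).trans (le_max_right _ _)).trans hA
  have hA2' : 2 ≤ A := by exact_mod_cast hA2
  refine ⟨A, 1 / 16, hA2', hAA₀, by norm_num, fun c hc hc2 => ?_⟩
  -- the thresholds
  have hcast : Tendsto (fun n : ℕ => (n : ℝ)) atTop atTop := tendsto_natCast_atTop_atTop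
  have e1 : ∀ᶠ L : ℕ in atTop, 4 * lam ≤ (L : ℝ) := hcast.eventually_ge_atTop _
  have e2 : ∀ᶠ L : ℕ in atTop, Real.log T0 ≤ (L : ℝ) := hcast.eventually_ge_atTop _
  have e3 : ∀ᶠ L : ℕ in atTop, (2000 : ℝ) ≤ (L : ℝ) := hcast.eventually_ge_atTop _
  have e4 : ∀ᶠ L : ℕ in atTop, 1 + Real.log (4 * A) ≤ Real.log L :=
    (Real.tendsto_log_atTop.comp hcast).eventually_ge_atTop _
  have e5 : ∀ᶠ L : ℕ in atTop, 32 * (A : ℝ) ≤ (L : ℝ) ^ (3 / 4 : ℝ) :=
    ((tendsto_rpow_atTop (by norm_num)).comp hcast).eventually_ge_atTop _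
  have e6 : ∀ᶠ L : ℕ in atTop, Real.log L ≤ 3 / 4 * (L : ℝ) ^ θ := by
    have h1 := (isLittleO_log_rpow_atTop hθ).bound (c := 3 / 4) (by norm_num)
    have h2 := hcast.eventually h1
    filter_upwards [h2] with L hL
    rw [Real.norm_of_nonneg (by positivity : (0 : ℝ) ≤ (L : ℝ) ^ θ)] at hL
    exact (le_abs_self _).trans hL
  obtain ⟨L₀, hL₀⟩ := (e1.and (e2.and (e3.and (e4.and (e5.and e6))))).exists_forall_of_atTop
  refine ⟨L₀, fun L K T x hL hT hLT hK hKL hx u hu => ?_⟩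
  obtain ⟨g1, g2, g3, g4, g5, g6⟩ := hL₀ L hL
  have hK1 : (1 : ℝ) ≤ K := by exact_mod_cast hK
  have hKK : (K : ℝ) ≤ (K : ℝ) ^ 2 := by nlinarith
  have hKK1 : (1 : ℝ) ≤ (K : ℝ) ^ 2 := by nlinarith
  have hLpos : (0 : ℝ) < L := by linarith
  have hL1 : (1 : ℝ) ≤ L := by linarith
  have hLN : 2000 ≤ L := by exact_mod_cast g3
  have hT00 : 0 < T := by linarith
  set y := Real.log T with hy
  have hLy : (L : ℝ) ≤ y := by
    refine le_trans ?_ hLT
    calc (L : ℝ) = (L : ℝ) ^ (1 : ℝ) := (Real.rpow_one _).symm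
      _ ≤ _ := Real.rpow_le_rpow_of_exponent_le hL1 (by linarith)
  have hTT0 : T0 ≤ T := by
    have := g2.trans hLy
    exact (Real.log_le_log_iff (by linarith) hT00).1 this
  have hK2 : (K : ℝ) ^ 2 ≤ (L : ℝ) ^ (1 / 4 : ℝ) := by
    calc (K : ℝ) ^ 2 ≤ ((L : ℝ) ^ (2 * c)) ^ 2 := pow_le_pow_left₀ (by positivity) hKL 2
      _ = (L : ℝ) ^ (4 * c) := by
        rw [← Real.rpow_natCast, ← Real.rpow_mul hLpos.le]
        congr 1
        push_cast
        ring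
      _ ≤ _ := Real.rpow_le_rpow_of_exponent_le hL1 (by linarith)
  have hz0e : Real.exp (A * K ^ 2) ≤ (⌈Real.exp (A * K ^ 2)⌉₊ : ℝ) := Nat.le_ceil _
  set n : ℕ := A * K ^ 2 with hn
  have hnR : (n : ℝ) = A * (K : ℝ) ^ 2 := by rw [hn]; push_cast; rfl
  have hn2 : 2 ≤ n := by
    calc 2 ≤ A * 1 := by omega
      _ ≤ A * K ^ 2 := Nat.mul_le_mul_left _ (Nat.one_le_pow _ _ hK)
  have hn2R : (2 : ℝ) ≤ n := by exact_mod_cast hn2
  have hn0 : (0 : ℝ) < n := by linarith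
  have h32 : 32 * (n : ℝ) ≤ y := by
    refine le_trans ?_ hLy
    have h1 : (L : ℝ) = (L : ℝ) ^ (3 / 4 : ℝ) * (L : ℝ) ^ (1 / 4 : ℝ) := by
      rw [← Real.rpow_add hLpos]
      norm_num
    rw [h1, hnR]
    calc 32 * (A * (K : ℝ) ^ 2) = 32 * A * (K : ℝ) ^ 2 := by ring
      _ ≤ _ := mul_le_mul g5 hK2 (by positivity) (by positivity)
  have hxT : 2 * (L : ℝ) * Real.log (2 * L) ≤ 3 * y := by
    have h1 : Real.log (2 * (L : ℝ)) ≤ 2 * Real.log L := by
      rw [Real.log_mul (by norm_num) hLpos.ne']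
      have := Real.log_le_log (by norm_num) (by linarith : (2 : ℝ) ≤ L)
      linarith
    have h2 : (L : ℝ) ^ (1 + θ) = L * (L : ℝ) ^ θ := by
      rw [Real.rpow_add hLpos, Real.rpow_one]
    rw [h2] at hLT
    calc 2 * (L : ℝ) * Real.log (2 * L) ≤ 2 * (L : ℝ) * (2 * (3 / 4 * (L : ℝ) ^ θ)) := by
          apply mul_le_mul_of_nonneg_left _ (by positivity)
          linarith
      _ = 3 * (L * (L : ℝ) ^ θ) := by ring
      _ ≤ _ := by linarith
  have hlogn : 1 + Real.log (4 * n) ≤ 2 * Real.log (2 * L) := by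
    have h1 : Real.log (4 * (n : ℝ)) = Real.log (4 * A) + Real.log ((K : ℝ) ^ 2) := by
      rw [hnR, ← mul_assoc, Real.log_mul (by positivity) (by positivity)]
    have h2 : Real.log ((K : ℝ) ^ 2) ≤ Real.log L := by
      apply Real.log_le_log (by positivity)
      refine hK2.trans ?_
      calc (L : ℝ) ^ (1 / 4 : ℝ) ≤ (L : ℝ) ^ (1 : ℝ) :=
            Real.rpow_le_rpow_of_exponent_le hL1 (by norm_num)
        _ = L := Real.rpow_one _
    have h3 : Real.log L ≤ Real.log (2 * L) := Real.log_le_log hLpos (by linarith)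
    linarith
  set z0 : ℕ := ⌈Real.exp (A * K ^ 2)⌉₊ with hz0
  set X : ℕ := XK (1 / (4 * (n : ℝ))) T with hX
  set z := zU (wL L) (y / lam) (fun i => hs (x i) T) u z0 with hz
  have hy0 : 0 < y := by linarith
  have hl : 0 < y / lam := div_pos hy0 (by linarith)
  have hVi : ∀ i, VC (zE (wL L) (y / lam) (hs (x i) T) z0) X ≤ 4 + 60 * C := fun i =>
    VC_one hCB (by omega) hTT0 (by linarith [(hx i).1]) (hx i).2 hxT hn2 h32 hlogn
  have hV : VC z X ≤ (K : ℝ) ^ 2 * V1 := VC_zU _ _ Ξ _ u z0 X hu _ hVi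
  have hV0 : 0 ≤ VC z X := Finset.sum_nonneg fun _ _ => sq_nonneg _
  have hz2 : 2 ≤ z0 := by
    have h1 := Real.add_one_le_exp ((A : ℝ) * (K : ℝ) ^ 2)
    have h2 : (2 : ℝ) ≤ z0 := by
      rw [← hnR] at h1 hz0e
      linarith
    exact_mod_cast h2
  have hz0pos : (0 : ℝ) < z0 := by exact_mod_cast (by omega : 0 < z0)
  have hw : wL L ^ 2 ≤ 20 := by
    rw [wL_sq (by omega)]
    have h1 : 1 ≤ Real.log ((2 * L : ℕ) : ℝ) := by
      rw [Real.le_log_iff_exp_le (by positivity)]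
      push_cast
      linarith [Real.exp_one_lt_d9]
    have hpi2 : Real.pi ^ 2 ≤ 10 := by
      have h2 := Real.pi_lt_d2
      have h3 := Real.pi_gt_three
      nlinarith only [h2, h3]
    rw [div_le_iff₀ (by linarith)]
    linarith only [h1, hpi2]
  set M : ℝ := 20 * K ^ 2 * Ξ ^ 2 * Real.exp (-n) with hMd
  have hM : ∀ p, ‖z p‖ ^ 2 ≤ M := by
    intro p
    refine (zU_sup _ _ Ξ hl _ u z0 p hz2 hu).trans ?_
    have h1 : wL L ^ 2 / z0 ≤ 20 * Real.exp (-n) := by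
      rw [← hnR] at hz0e
      rw [Real.exp_neg, div_le_iff₀ hz0pos]
      have h2 : (1 : ℝ) ≤ (Real.exp n)⁻¹ * z0 := by
        rw [inv_mul_eq_div, one_le_div (Real.exp_pos _)]
        exact hz0e
      linarith only [h2, hw]
    calc (K : ℝ) ^ 2 * Ξ ^ 2 * (wL L ^ 2 / z0) ≤ (K : ℝ) ^ 2 * Ξ ^ 2 * (20 * Real.exp (-n)) :=
          mul_le_mul_of_nonneg_left h1 (by positivity)
      _ = M := by rw [hMd]; ring
  obtain ⟨hX1, hXT⟩ := XK_pow (n := n) (by omega) hT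
  have hmain := hcfq z X n T M hX1 (by omega) hT hXT hM
  refine hmain.trans ?_
  have hBK : B * K ≤ B * (K : ℝ) ^ 2 := mul_le_mul_of_nonneg_left hKK hB
  have hAK : (3 * V1 + B + 4 + 60 * Ξ ^ 2) * (K : ℝ) ^ 2 ≤ A * (K : ℝ) ^ 2 :=
    mul_le_mul_of_nonneg_right hAV (by positivity)
  have hV1K : 0 ≤ V1 * (K : ℝ) ^ 2 := by positivity
  have hΞK : 0 ≤ Ξ ^ 2 * (K : ℝ) ^ 2 := by positivity
  have hBK0 : 0 ≤ B * (K : ℝ) ^ 2 := by positivity
  have hVn : VC z X / n ≤ 1 / 3 := by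
    rw [div_le_iff₀ hn0, hnR]
    nlinarith only [hV, hAK, hV1K, hΞK, hBK0, hKK1]
  have hVn0 : 0 ≤ VC z X / n := by positivity
  have hpow : (VC z X / n) ^ n ≤ Real.exp (-n) := by
    calc (VC z X / n) ^ n ≤ (1 / 3) ^ n := pow_le_pow_left₀ hVn0 hVn n
      _ ≤ (Real.exp (-1)) ^ n := by
        apply pow_le_pow_left₀ (by norm_num)
        rw [Real.exp_neg, one_div]
        exact inv_anti₀ (Real.exp_pos _) (by linarith [Real.exp_one_lt_d9])
      _ = Real.exp (-n) := by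
        rw [← Real.exp_nat_mul]
        congr 1
        ring
  have hpow1 : (VC z X / n) ^ n ≤ 1 := hpow.trans (Real.exp_le_one_iff.2 (by linarith))
  have t1 : 3 * (VC z X / n) ^ n ≤ Real.exp (-(B * K)) / 3 := by
    have h1 : Real.exp (-(n : ℝ)) = Real.exp (-(B * K)) * Real.exp (-(n - B * K)) := by
      rw [← Real.exp_add]; congr 1; ring
    have h2 : (4 : ℝ) ≤ n - B * K := by
      rw [hnR]
      nlinarith only [hBK, hAK, hV1K, hΞK, hBK0, hKK1]
    have h3 : Real.exp (-(n - B * K)) ≤ 1 / 9 := by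
      rw [Real.exp_neg, ← one_div]
      apply one_div_le_one_div_of_le (by norm_num)
      have h6 := Real.quadratic_le_exp_of_nonneg (x := (n : ℝ) - B * K) (by linarith)
      nlinarith only [h6, h2]
    have h4 := Real.exp_pos (-(B * K))
    have h5 : Real.exp (-(n : ℝ)) ≤ Real.exp (-(B * K)) * (1 / 9) := by
      rw [h1]
      exact mul_le_mul_of_nonneg_left h3 h4.le
    linarith
  have t2 : M * Real.exp (VC z X) ≤ Real.exp (-(B * K)) / 3 := by
    have h1 : 60 * ((K : ℝ) ^ 2 * Ξ ^ 2) ≤ Real.exp (60 * ((K : ℝ) ^ 2 * Ξ ^ 2)) := by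
      linarith [Real.add_one_le_exp (60 * ((K : ℝ) ^ 2 * Ξ ^ 2))]
    have h2 : Real.exp (60 * ((K : ℝ) ^ 2 * Ξ ^ 2)) * (Real.exp (-n) * Real.exp (VC z X)) ≤
        Real.exp (-(B * K)) := by
      rw [← Real.exp_add, ← Real.exp_add]
      apply Real.exp_le_exp.2
      rw [hnR]
      nlinarith only [hBK, hAK, hV1K, hΞK, hBK0, hKK1, hV]
    have h3 := mul_le_mul_of_nonneg_right h1
      (mul_pos (Real.exp_pos (-(n : ℝ))) (Real.exp_pos (VC z X))).le
    have h4 : M * Real.exp (VC z X) = 60 * ((K : ℝ) ^ 2 * Ξ ^ 2) *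
        (Real.exp (-n) * Real.exp (VC z X)) / 3 := by
      rw [hMd]; ring
    rw [h4]
    linarith
  have t3 : 8 * (1 + Real.log T) / Real.sqrt T * (2 * n + Real.exp (VC z X) + (VC z X / n) ^ n) ≤
      Real.exp (-(B * K)) / 3 := by
    have hsq : Real.sqrt T = Real.exp (y / 2) := by
      rw [Real.exp_half, hy, Real.exp_log hT00]
    have h1 : VC z X ≤ 2 * n := by
      have := (div_le_iff₀ hn0).1 hVn
      linarith
    have h2 : B * K ≤ n := by
      rw [hnR]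
      nlinarith only [hBK, hAK, hV1K, hΞK, hBK0, hKK1]
    have h3 := tail_le (y := y) (n := n) (V := VC z X) (B := B) (K := K) (by linarith) h32
      (by linarith) h1 h2
    rw [hsq]
    refine le_trans ?_ h3
    apply mul_le_mul_of_nonneg_left _ (by positivity)
    linarith
  have h9 := add_le_add (add_le_add t1 t2) t3
  refine h9.trans (le_of_eq ?_)
  ring

end Pool.Agent.P8H54.EN
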