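import Pool.Agent.P8H60.EN.Stm
import Pool.Agent.P8H54.EN.Cf
import Pool.Agent.P8H67.LM.TW

/-! # Project EN, package ERR: the number of zeros and prime polynomials -/

set_option autoImplicit false

namespace Pool.Agent.P8H54.EN

open Finset MeasureTheory Filter Topology ProbabilityTheory Complex
open Pool.Agent.P8H60.LM (GC VC)
open Pool.Agent.Y743.CL (rc XK er VS SS rc_sq kap_bd Pr G er_meas pr pr_apply SS_le)
open Pool.Agent.P8H60.EN
open Pool.Agent.R321.QA (hs)
open Pool.Agent.R846.VS (Dd)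
open Pool.Agent.Y41.SW (DP)
open Pool.Agent.TH850.UV (ggo ggo_le ggo_nonneg)

/-- Chebyshev's inequality on an interval -/
lemma cheb {f : ℝ → ℝ} {a b e I : ℝ} (hab : a ≤ b) (hf : IntervalIntegrable (fun t => f t ^ 2) volume a b)
    (he : 0 < e) (hI : ∫ t in a..b, f t ^ 2 ≤ I) :
    volume {t ∈ Set.Icc a b | e < |f t|} ≤ ENNReal.ofReal (I / e ^ 2) := by
  set μ := volume.restrict (Set.Ioc a b) with hμ
  have hint : Integrable (fun t => f t ^ 2) μ := (intervalIntegrable_iff_integrableOn_Ioc_of_le hab).1 hf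
  have h1 := mul_meas_ge_le_integral_of_nonneg (μ := μ) (f := fun t => f t ^ 2)
    (Eventually.of_forall fun t => sq_nonneg _) hint (e ^ 2)
  have h2 : ∫ t, f t ^ 2 ∂μ = ∫ t in a..b, f t ^ 2 := (intervalIntegral.integral_of_le hab).symm
  rw [h2] at h1
  have h3 : μ.real {t | e ^ 2 ≤ f t ^ 2} ≤ I / e ^ 2 := by
    rw [le_div_iff₀ (by positivity), mul_comm]
    exact h1.trans hI
  have h4 : volume {t ∈ Set.Icc a b | e < |f t|} ≤ μ {t | e ^ 2 ≤ f t ^ 2} := by
    rw [hμ, Measure.restrict_apply' measurableSet_Ioc]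
    have h5 : {t ∈ Set.Icc a b | e < |f t|} ⊆ ({t | e ^ 2 ≤ f t ^ 2} ∩ Set.Ioc a b) ∪ {a} := by
      rintro t ⟨⟨ha, hb⟩, ht⟩
      rcases eq_or_lt_of_le ha with h | h
      · right
        exact h.symm
      · left
        refine ⟨?_, h, hb⟩
        show e ^ 2 ≤ f t ^ 2
        rw [← sq_abs (f t)]
        exact pow_le_pow_left₀ he.le ht.le 2
    refine (measure_mono h5).trans ((measure_union_le _ _).trans ?_)
    rw [Real.volume_singleton, add_zero]
  refine h4.trans ?_
  rw [← ENNReal.ofReal_toReal (measure_ne_top μ _)]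
  exact ENNReal.ofReal_le_ofReal h3

/-- the size of the coefficients at small primes -/
lemma rc_small {l h : ℝ} (hl : 0 < l) (hh : 0 ≤ h) {p : ℕ} (hp : p.Prime) :
    rc l h p ^ 2 ≤ (h * Real.log p) ^ 2 / p := by
  have hp0 : (0 : ℝ) < p := by exact_mod_cast hp.pos
  have hlp : 0 < Real.log p := Real.log_pos (by exact_mod_cast hp.one_lt)
  have hpi := Real.pi_pos
  unfold rc
  rw [ArithmeticFunction.vonMangoldt_apply_prime hp]
  have h1 : l * ggo l p ≤ Real.sqrt (2 * Real.pi) := by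
    have := ggo_le hl p
    rw [le_div_iff₀ hl] at this
    linarith
  have h1' : 0 ≤ l * ggo l p := mul_nonneg hl.le (ggo_nonneg l p)
  have h2 : Real.sin (h / 2 * Real.log p) ^ 2 ≤ (h / 2 * Real.log p) ^ 2 := by
    rw [← sq_abs (Real.sin _)]
    have h9 : |Real.sin (h / 2 * Real.log p)| ≤ |h / 2 * Real.log p| := Real.abs_sin_le_abs
    rw [← sq_abs (h / 2 * Real.log p)]
    exact pow_le_pow_left₀ (abs_nonneg _) h9 2
  have h3 : (l * ggo l p) ^ 2 ≤ 2 * Real.pi := by
    calc (l * ggo l p) ^ 2 ≤ Real.sqrt (2 * Real.pi) ^ 2 := pow_le_pow_left₀ h1' h1 2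
      _ = _ := Real.sq_sqrt (by positivity)
  have e1 : (2 * (1 / Real.sqrt (2 * Real.pi)) * (Real.log p * (Real.sqrt p)⁻¹ * ggo l p) *
      (l / (2 * Real.pi) * (2 * Real.sin (h / 2 * Real.log p) / Real.log p))) ^ 2 =
      2 / Real.pi ^ 3 / p * ((l * ggo l p) ^ 2 * Real.sin (h / 2 * Real.log p) ^ 2) := by
    have a1 : Real.sqrt (2 * Real.pi) ^ 2 = 2 * Real.pi := Real.sq_sqrt (by positivity)
    have a2 : Real.sqrt (p : ℝ) ^ 2 = p := Real.sq_sqrt hp0.le
    have a3 : Real.sqrt (2 * Real.pi) ≠ 0 := (Real.sqrt_pos.2 (by positivity)).ne'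
    have a4 : Real.sqrt (p : ℝ) ≠ 0 := (Real.sqrt_pos.2 hp0).ne'
    generalize Real.sin (h / 2 * Real.log p) = s
    generalize ggo l p = g
    generalize hq : Real.sqrt (2 * Real.pi) = q at *
    generalize hr : Real.sqrt (p : ℝ) = r at *
    have b1 : (2 * (1 / q) * (Real.log p * r⁻¹ * g) * (l / (2 * Real.pi) * (2 * s / Real.log p))) ^ 2 =
        4 * (1 / q ^ 2) * (1 / r ^ 2) * (l * g) ^ 2 * s ^ 2 / Real.pi ^ 2 := by
      field_simp
      try ring
    rw [b1, a1, a2]
    field_simp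
    try ring
  rw [e1]
  calc 2 / Real.pi ^ 3 / p * ((l * ggo l p) ^ 2 * Real.sin (h / 2 * Real.log p) ^ 2)
      ≤ 2 / Real.pi ^ 3 / p * (2 * Real.pi * (h / 2 * Real.log p) ^ 2) := by
        apply mul_le_mul_of_nonneg_left _ (by positivity)
        exact mul_le_mul h3 h2 (sq_nonneg _) (by positivity)
    _ = (1 / Real.pi ^ 2) * ((h * Real.log p) ^ 2 / p) := by
        field_simp
        try ring
    _ ≤ 1 * ((h * Real.log p) ^ 2 / p) := by
        apply mul_le_mul_of_nonneg_right _ (by positivity)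
        rw [div_le_one (by positivity)]
        nlinarith [Real.pi_gt_three]
    _ = _ := one_mul _

/-- the coefficients at the small primes -/
noncomputable def zS (w l h : ℝ) (p : ℕ) : ℂ :=
  ((w * rc l h p : ℝ) : ℂ) * (p : ℂ) ^ (-((h / 2 : ℝ) : ℂ) * I)

lemma cpow_ex {p : ℕ} (hp : p ≠ 0) (y : ℝ) : (p : ℂ) ^ (-(y : ℂ) * I) =
    cexp (-((y * Real.log p : ℝ) : ℂ) * I) := by
  rw [Complex.cpow_def_of_ne_zero (by exact_mod_cast hp), ← Complex.natCast_log]
  congr 1
  push_cast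
  ring

/-- the prime polynomial is the sum of the parts over small and large primes -/
lemma split_G (w l h : ℝ) (z0 X : ℕ) (hz : z0 ≤ X) (t : ℝ) :
    (w : ℂ) * G (rc l h) X (t + h / 2) = GC (zE w l h z0) X t + GC (zS w l h) z0 t := by
  have h1 : G (rc l h) X (t + h / 2) = ∑ n ∈ (Finset.Icc 1 X).filter Nat.Prime,
      ((rc l h n : ℝ) : ℂ) * (n : ℂ) ^ (-((t + h / 2 : ℝ) : ℂ) * I) := by
    unfold G DP
    rw [Finset.sum_filter]
    refine Finset.sum_congr rfl fun n hn => ?_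
    rw [pr_apply]
    by_cases hp : n.Prime
    · rw [if_pos ⟨hp, (Finset.mem_Icc.1 hn).2⟩, if_pos hp]
    · rw [if_neg (fun h => hp h.1), if_neg hp]
      simp
  have h2 : GC (zS w l h) z0 t = ∑ n ∈ (Finset.Icc 1 X).filter Nat.Prime,
      (if n ≤ z0 then zS w l h n * (n : ℂ) ^ (-(t : ℂ) * I) else 0) := by
    unfold GC
    rw [← Finset.sum_filter, Finset.filter_filter]
    refine Finset.sum_congr ?_ fun _ _ => rfl
    ext n
    simp only [Finset.mem_filter, Finset.mem_Icc]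
    constructor
    · rintro ⟨⟨a, b⟩, c⟩
      exact ⟨⟨a, by omega⟩, c, b⟩
    · rintro ⟨⟨a, _⟩, c, d⟩
      exact ⟨⟨a, d⟩, c⟩
  rw [h1, h2]
  unfold GC
  rw [← Finset.sum_add_distrib, Finset.mul_sum]
  refine Finset.sum_congr rfl fun n hn => ?_
  have hn0 : n ≠ 0 := by
    have := (Finset.mem_Icc.1 (Finset.mem_filter.1 hn).1).1
    omega
  have e1 : (n : ℂ) ^ (-((t + h / 2 : ℝ) : ℂ) * I) =
      (n : ℂ) ^ (-((h / 2 : ℝ) : ℂ) * I) * (n : ℂ) ^ (-(t : ℂ) * I) := by
    rw [cpow_ex hn0, cpow_ex hn0, cpow_ex hn0, ← Complex.exp_add]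
    congr 1
    push_cast
    ring
  rw [e1]
  unfold zE zS
  by_cases hnz : z0 < n
  · rw [if_pos hnz, if_neg (by omega)]
    push_cast
    ring
  · rw [if_neg hnz, if_pos (by omega)]
    push_cast
    ring

/-- the identity -/
lemma Dd_id (lam κ w T t x : ℝ) (z0 : ℕ) (hz : z0 ≤ XK κ T) :
    w * Dd T t x + (GC (zE w (Real.log T / lam) (hs x T) z0) (XK κ T) t).re =
      w * er lam κ T x t - (GC (zS w (Real.log T / lam) (hs x T)) z0 t).re := by
  have h1 : Dd T t x = er lam κ T x t -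
      (G (rc (Real.log T / lam) (hs x T)) (XK κ T) (t + hs x T / 2)).re := by
    unfold Dd er hs
    ring
  have h2 := congrArg Complex.re (split_G w (Real.log T / lam) (hs x T) z0 (XK κ T) hz t)
  rw [Complex.re_ofReal_mul, Complex.add_re] at h2
  rw [h1]
  linarith

/-- the variance of the part over small primes -/
lemma VS_zS {C : ℝ} (hC : 0 ≤ C) (hM : ∀ N : ℕ, 1 ≤ N →
    |∑ p ∈ (Finset.Icc 1 N).filter Nat.Prime, Real.log p / p - Real.log N| ≤ C)
    {w l h : ℝ} (hl : 0 < l) (hh : 0 ≤ h) {z0 : ℕ} (hz : 3 ≤ z0) (hhz : h * Real.log z0 ≤ 1) :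
    VC (zS w l h) z0 ≤ w ^ 2 * (1 + C) := by
  have hz3 : (3 : ℝ) ≤ z0 := by exact_mod_cast hz
  have hl1 : 1 ≤ Real.log z0 := by
    rw [Real.le_log_iff_exp_le (by linarith)]
    linarith [Real.exp_one_lt_d9]
  have h1 : ∀ p ∈ (Finset.Icc 1 z0).filter Nat.Prime, ‖zS w l h p‖ ^ 2 ≤
      w ^ 2 * (h ^ 2 * Real.log z0 * (Real.log p / p)) := by
    intro p hp
    rw [Finset.mem_filter, Finset.mem_Icc] at hp
    have hp0 : (0 : ℝ) < p := by exact_mod_cast hp.2.pos
    have hlp : 0 ≤ Real.log p := Real.log_nonneg (by exact_mod_cast hp.1.1)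
    have hlpz : Real.log p ≤ Real.log z0 := Real.log_le_log hp0 (by exact_mod_cast hp.1.2)
    unfold zS
    rw [norm_mul, cpow_norm (by omega : p ≠ 0), mul_one, Complex.norm_real, Real.norm_eq_abs, sq_abs,
      mul_pow]
    apply mul_le_mul_of_nonneg_left _ (sq_nonneg _)
    refine (rc_small hl hh hp.2).trans ?_
    have e : (h * Real.log p) ^ 2 / p = h ^ 2 * Real.log p * (Real.log p / p) := by ring
    rw [e]
    apply mul_le_mul_of_nonneg_right _ (by positivity)
    exact mul_le_mul_of_nonneg_left hlpz (sq_nonneg _)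
  have h2 := (abs_le.1 (hM z0 (by omega))).2
  have h3 : 0 ≤ h * Real.log z0 := by positivity
  unfold VC
  refine (Finset.sum_le_sum h1).trans ?_
  rw [← Finset.mul_sum, ← Finset.mul_sum]
  apply mul_le_mul_of_nonneg_left _ (sq_nonneg _)
  calc h ^ 2 * Real.log z0 * ∑ p ∈ (Finset.Icc 1 z0).filter Nat.Prime, Real.log p / p
      ≤ h ^ 2 * Real.log z0 * (Real.log z0 + C * Real.log z0) := by
        apply mul_le_mul_of_nonneg_left _ (by positivity)
        have : C ≤ C * Real.log z0 := le_mul_of_one_le_right hC hl1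
        linarith
    _ = (h * Real.log z0) ^ 2 * (1 + C) := by ring
    _ ≤ 1 * (1 + C) := by
        apply mul_le_mul_of_nonneg_right _ (by linarith)
        exact pow_le_one₀ h3 hhz
    _ = _ := one_mul _

/-- the mean square of a short polynomial -/
lemma GC_ms (z : ℕ → ℂ) {z0 : ℕ} (hz : 1 ≤ z0) {T : ℝ} (hT : 1 ≤ T) (hzT : (z0 : ℝ) ^ 2 ≤ Real.sqrt T) :
    ∫ t in T..(2 * T), ((GC z z0 t).re) ^ 2 ≤ 17 * VC z z0 * T := by
  have hT0 : 0 < T := by linarith
  have h1 := Pool.Agent.P8H67.LM.mom_bd z z0 hz T T (2 * T) hT (by linarith) 1 1 (by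
    push_cast
    exact hzT)
  simp only [if_true, pow_one, Nat.factorial_one, Nat.cast_one, one_mul] at h1
  have hV : VS (Pool.Agent.P8H67.LM.cc z) z0 = VC z z0 := (Pool.Agent.P8H67.LM.VC_eq z z0).symm
  rw [hV] at h1
  have hV0 : 0 ≤ VC z z0 := Finset.sum_nonneg fun _ _ => sq_nonneg _
  rw [Real.mul_self_sqrt hV0] at h1
  have hS : SS (Pool.Agent.P8H67.LM.cc z) z0 1 ≤ VC z z0 := by
    have := SS_le (Pool.Agent.P8H67.LM.cc z) z0 1
    rw [hV] at this
    simpa using this
  have hcont := Pool.Agent.P8H67.LM.GC_cont z z0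
  have h2 : ∀ t, GC z z0 t * (starRingEnd ℂ) (GC z z0 t) = ((‖GC z z0 t‖ ^ 2 : ℝ) : ℂ) := by
    intro t
    rw [Complex.mul_conj, Complex.normSq_eq_norm_sq]
  simp only [h2] at h1
  rw [intervalIntegral.integral_ofReal, ← Complex.ofReal_mul, ← Complex.ofReal_sub, Complex.norm_real,
    Real.norm_eq_abs] at h1
  have h3 := (abs_le.1 h1).2
  have h4 : ∫ t in T..(2 * T), ((GC z z0 t).re) ^ 2 ≤ ∫ t in T..(2 * T), ‖GC z z0 t‖ ^ 2 := by
    refine intervalIntegral.integral_mono_on (by linarith) ?_ ?_ fun t _ => ?_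
    · exact Continuous.intervalIntegrable (by fun_prop) _ _
    · exact Continuous.intervalIntegrable (by fun_prop) _ _
    · rw [← sq_abs]
      exact pow_le_pow_left₀ (abs_nonneg _) (Complex.abs_re_le_norm _) 2
  have h5 : Real.sqrt T * (1 + Real.log T) ≤ 2 * T := by
    have a1 : 0 < Real.sqrt T := Real.sqrt_pos.2 hT0
    have a2 : Real.log T = 2 * Real.log (Real.sqrt T) := by
      rw [Real.log_sqrt hT0.le]; ring
    have a3 := Real.log_le_sub_one_of_pos a1
    have a4 : Real.sqrt T * Real.sqrt T = T := Real.mul_self_sqrt hT0.le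
    nlinarith
  have h6 : (2 * T - T) * SS (Pool.Agent.P8H67.LM.cc z) z0 1 ≤ T * VC z z0 := by
    have : 2 * T - T = T := by ring
    rw [this]
    exact mul_le_mul_of_nonneg_left hS hT0.le
  have h7 : Real.sqrt T * (1 + Real.log T) * VC z z0 ≤ 2 * T * VC z z0 :=
    mul_le_mul_of_nonneg_right h5 hV0
  nlinarith

theorem t_ERR : S_ERR := by
  intro lam C T0 hCB
  obtain ⟨h16, hC, hT10, hcb⟩ := hCB
  obtain ⟨C0, hC0⟩ := Pool.Agent.Helper256.KM.mertens_log
  set C1 := max C0 0 with hC1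
  have hC10 : 0 ≤ C1 := le_max_right _ _
  have hM : ∀ N : ℕ, 1 ≤ N →
      |∑ p ∈ (Finset.Icc 1 N).filter Nat.Prime, Real.log p / p - Real.log N| ≤ C1 := fun N hN =>
    (hC0 N hN).trans (le_max_left _ _)
  have hcast : Tendsto (fun n : ℕ => (n : ℝ)) atTop atTop := tendsto_natCast_atTop_atTop
  have e1 : ∀ᶠ L : ℕ in atTop, 4 * lam ≤ (L : ℝ) := hcast.eventually_ge_atTop _
  have e2 : ∀ᶠ L : ℕ in atTop, Real.log T0 ≤ (L : ℝ) := hcast.eventually_ge_atTop _
  have e3 : ∀ᶠ L : ℕ in atTop, (10 : ℝ) ≤ (L : ℝ) := hcast.eventually_ge_atTop _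
  obtain ⟨L₀, hL₀⟩ := (e1.and (e2.and e3)).exists_forall_of_atTop
  refine ⟨80 * C + 1360 * (1 + C1) + 18, L₀, by positivity, ?_⟩
  intro L n z0 T x e hL hT hLT hn hnT hz hzX hzT hhz hxL hxL2 he he1
  obtain ⟨g1, g2, g3⟩ := hL₀ L hL
  have hT00 : 0 < T := by linarith
  have hLN : 10 ≤ L := by exact_mod_cast g3
  have hn2R : (2 : ℝ) ≤ n := by exact_mod_cast hn
  set y := Real.log T with hy
  push_cast at hLT ⊢
  have hl1 : 1 ≤ Real.log (2 * (L : ℝ)) := by
    rw [Real.le_log_iff_exp_le (by positivity)]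
    linarith [Real.exp_one_lt_d9]
  have hLy : 2 * (L : ℝ) ≤ y := by
    refine le_trans ?_ hLT
    exact le_mul_of_one_le_right (by linarith) hl1
  have hy20 : 20 ≤ y := by linarith
  have hlogy : Real.log (2 * (L : ℝ)) ≤ y := by
    have := Real.log_le_sub_one_of_pos (x := 2 * (L : ℝ)) (by linarith)
    linarith
  have hTT0 : T0 ≤ T := by
    have : Real.log T0 ≤ y := by linarith
    exact (Real.log_le_log_iff (by linarith) hT00).1 this
  have hx0 : 0 < x := by linarith
  have hxlam : lam ≤ x := by linarith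
  have hexpy : Real.exp y = T := by rw [hy, Real.exp_log hT00]
  have hquad := Real.quadratic_le_exp_of_nonneg (x := y) (by linarith)
  rw [hexpy] at hquad
  have hlx : Real.log x ≤ Real.log (2 * (L : ℝ)) := Real.log_le_log hx0 hxL2
  have hlx0 : 0 ≤ Real.log x := Real.log_nonneg (by linarith)
  have hxT : x * Real.log x ≤ 3 * y := by
    have : x * Real.log x ≤ 2 * (L : ℝ) * Real.log (2 * (L : ℝ)) :=
      mul_le_mul hxL2 hlx hlx0 (by positivity)
    linarith
  obtain ⟨hii, hint, -⟩ := hcb T hTT0 x hxlam hxT (1 / (4 * (n : ℝ))) (by positivity) (by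
    rw [div_le_div_iff₀ (by positivity) (by norm_num)]; linarith) (by
    rw [div_mul_eq_mul_div, le_div_iff₀ (by positivity)]; linarith)
  rw [one_div_one_div] at hint
  set κ : ℝ := 1 / (4 * (n : ℝ)) with hκ
  set w := wL L with hw
  have hw2 : w ^ 2 * Real.log (2 * (L : ℝ)) ≤ 20 := by
    have h1 := wL_sq (L := L) (by omega)
    push_cast at h1
    rw [hw, h1, div_mul_cancel₀ _ (by linarith)]
    have hpi2 : Real.pi ^ 2 ≤ 10 := by
      have h2 := Real.pi_lt_d2
      have h3 := Real.pi_gt_three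
      nlinarith only [h2, h3]
    linarith
  have hlog4 : 0 ≤ Real.log (4 * (n : ℝ)) := Real.log_nonneg (by linarith)
  set Q : ℝ := 1 + Real.log (4 * (n : ℝ)) with hQ
  have hQ1 : 1 ≤ Q := by linarith
  set ll := Real.log (2 * (L : ℝ)) with hll
  have hll0 : 0 < ll := by linarith
  have hhs : 0 ≤ hs x T := by
    unfold hs
    have := Real.pi_pos
    positivity
  have hhs2 : hs x T * Real.log z0 ≤ 1 := by
    refine le_trans ?_ hhz
    apply mul_le_mul_of_nonneg_right _ (Real.log_natCast_nonneg _)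
    unfold hs
    have := Real.pi_pos
    have hy0 : 0 < y := by linarith
    rw [← hy]
    gcongr
  have hl : 0 < y / lam := div_pos (by linarith) (by linarith)
  -- the four parts
  have p1 : volume (Set.Icc T (T + y)) = ENNReal.ofReal y := by
    rw [Real.volume_Icc]; congr 1; ring
  have p2 : volume (Set.Icc (2 * T - y - 7) (2 * T)) = ENNReal.ofReal (y + 7) := by
    rw [Real.volume_Icc]; congr 1; ring
  have hab : T + y ≤ 2 * T - y - 7 := by nlinarith
  have p3 : volume {t ∈ Set.Icc (T + y) (2 * T - y - 7) | e / 2 < |w * er lam κ T x t|} ≤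
      ENNReal.ofReal (w ^ 2 * (C * Q * T) / (e / 2) ^ 2) := by
    refine cheb hab ?_ (by positivity) ?_
    · simp only [mul_pow]
      exact hii.const_mul _
    · simp only [mul_pow]
      rw [intervalIntegral.integral_const_mul]
      exact mul_le_mul_of_nonneg_left hint (sq_nonneg _)
  have p4 : volume {t ∈ Set.Icc T (2 * T) | e / 2 < |(GC (zS w (y / lam) (hs x T)) z0 t).re|} ≤
      ENNReal.ofReal (17 * (w ^ 2 * (1 + C1)) * T / (e / 2) ^ 2) := by
    refine cheb (by linarith) ?_ (by positivity) ?_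
    · have := Pool.Agent.P8H67.LM.GC_cont (zS w (y / lam) (hs x T)) z0
      exact Continuous.intervalIntegrable (by fun_prop) _ _
    · refine (GC_ms _ (by omega) hT hzT).trans ?_
      have := VS_zS hC10 hM (w := w) hl hhs hz hhs2
      gcongr
  have hsub : {t ∈ Set.Icc T (2 * T) | e < |w * Dd T t x +
      (GC (zE w (y / lam) (hs x T) z0) (XK κ T) t).re|} ⊆
      ((Set.Icc T (T + y) ∪ Set.Icc (2 * T - y - 7) (2 * T)) ∪
      {t ∈ Set.Icc (T + y) (2 * T - y - 7) | e / 2 < |w * er lam κ T x t|}) ∪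
      {t ∈ Set.Icc T (2 * T) | e / 2 < |(GC (zS w (y / lam) (hs x T)) z0 t).re|} := by
    rintro t ⟨⟨ht1, ht2⟩, ht⟩
    rw [hy, Dd_id lam κ w T t x z0 hzX, ← hy] at ht
    by_cases h4 : e / 2 < |(GC (zS w (y / lam) (hs x T)) z0 t).re|
    · exact Or.inr ⟨⟨ht1, ht2⟩, h4⟩
    left
    rcases le_total t (T + y) with h1 | h1
    · exact Or.inl (Or.inl ⟨ht1, h1⟩)
    rcases le_total (2 * T - y - 7) t with h2 | h2
    · exact Or.inl (Or.inr ⟨h2, ht2⟩)
    right
    refine ⟨⟨h1, h2⟩, ?_⟩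
    push Not at h4
    have := abs_sub (w * er lam κ T x t) ((GC (zS w (y / lam) (hs x T)) z0 t).re)
    linarith
  have hy0 : 0 ≤ y := by linarith
  have hi1 : 0 ≤ w ^ 2 * (C * Q * T) / (e / 2) ^ 2 := by positivity
  have hi2 : 0 ≤ 17 * (w ^ 2 * (1 + C1)) * T / (e / 2) ^ 2 := by positivity
  calc _ ≤ _ := measure_mono hsub
    _ ≤ ((volume (Set.Icc T (T + y)) + volume (Set.Icc (2 * T - y - 7) (2 * T))) +
        volume {t ∈ Set.Icc (T + y) (2 * T - y - 7) | e / 2 < |w * er lam κ T x t|}) +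
        volume {t ∈ Set.Icc T (2 * T) | e / 2 < |(GC (zS w (y / lam) (hs x T)) z0 t).re|} := by
        refine (measure_union_le _ _).trans (add_le_add_left ?_ _)
        refine (measure_union_le _ _).trans (add_le_add_left ?_ _)
        exact measure_union_le _ _
    _ ≤ ((ENNReal.ofReal y + ENNReal.ofReal (y + 7)) +
        ENNReal.ofReal (w ^ 2 * (C * Q * T) / (e / 2) ^ 2)) +
        ENNReal.ofReal (17 * (w ^ 2 * (1 + C1)) * T / (e / 2) ^ 2) := by
        rw [p1, p2]
        gcongr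
    _ = ENNReal.ofReal (y + (y + 7) + w ^ 2 * (C * Q * T) / (e / 2) ^ 2 +
        17 * (w ^ 2 * (1 + C1)) * T / (e / 2) ^ 2) := by
        rw [ENNReal.ofReal_add (by positivity) hi2, ENNReal.ofReal_add (by positivity) hi1,
          ENNReal.ofReal_add hy0 (by linarith : (0 : ℝ) ≤ y + 7)]
    _ ≤ _ := by
        apply ENNReal.ofReal_le_ofReal
        have he2 : e ^ 2 ≤ 1 := pow_le_one₀ he.le he1
        have q1 : y + (y + 7) ≤ 18 * Q / (e ^ 2 * ll) * T := by
          rw [div_mul_eq_mul_div, le_div_iff₀ (by positivity)]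
          calc (y + (y + 7)) * (e ^ 2 * ll) ≤ (3 * y) * (1 * y) := by
                apply mul_le_mul _ _ (by positivity) (by positivity)
                · linarith
                · exact mul_le_mul he2 hlogy hll0.le (by norm_num)
            _ ≤ 18 * T := by nlinarith
            _ = 18 * 1 * T := by ring
            _ ≤ 18 * Q * T := by gcongr
        have q2 : w ^ 2 * (C * Q * T) / (e / 2) ^ 2 ≤ 80 * C * Q / (e ^ 2 * ll) * T := by
          rw [div_mul_eq_mul_div, div_le_div_iff₀ (by positivity) (by positivity)]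
          calc w ^ 2 * (C * Q * T) * (e ^ 2 * ll) = (w ^ 2 * ll) * (C * Q * T * e ^ 2) := by ring
            _ ≤ 20 * (C * Q * T * e ^ 2) := by gcongr
            _ = _ := by ring
        have q3 : 17 * (w ^ 2 * (1 + C1)) * T / (e / 2) ^ 2 ≤
            1360 * (1 + C1) * Q / (e ^ 2 * ll) * T := by
          rw [div_mul_eq_mul_div, div_le_div_iff₀ (by positivity) (by positivity)]
          calc 17 * (w ^ 2 * (1 + C1)) * T * (e ^ 2 * ll) =
                (w ^ 2 * ll) * (17 * (1 + C1) * T * e ^ 2) := by ring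
            _ ≤ 20 * (17 * (1 + C1) * T * e ^ 2) := by gcongr
            _ = 340 * (1 + C1) * 1 * T * e ^ 2 := by ring
            _ ≤ 340 * (1 + C1) * Q * T * e ^ 2 := by gcongr
            _ = _ := by ring
        have q4 : (80 * C + 1360 * (1 + C1) + 18) * Q / (e ^ 2 * ll) * T =
            18 * Q / (e ^ 2 * ll) * T + 80 * C * Q / (e ^ 2 * ll) * T +
            1360 * (1 + C1) * Q / (e ^ 2 * ll) * T := by ring
        rw [q4]
        linarith

end Pool.Agent.P8H54.EN
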